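import Pool.Agent.Q138.PS.YG
import Pool.Agent.H137R5.TowFam

/-!
# `n ^ π` and `n ^ e` for the integers `n` close to products of powers of few integers

For every `s` there is `κ` with the following property. Let `t` be an irrational real number, for instance `t = π` or `t = e`. For all
large `N`, all positive integers `m_1, …, m_s ≤ N` and integers `b_1, …, b_s` with `|b_k| ≤ N`, and `x = m_1 ^ b_1 ⋯ m_s ^ b_s`: for
EVERY integer `n ≥ 2` with `n ≠ x` and `|n - x| ≤ x exp (-(log N) ^ κ)` the number `n ^ t` is transcendental.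

The numbers `x` can be as large as `exp (s N log N)`, so the windows have the length `x ^ (1 - o(1))`. For instance `(2 ^ k + c) ^ π` and
`(2 ^ k + c) ^ e` are transcendental for all large `k` and all integers `c ≠ 0` with `|c| ≤ 2 ^ (k / 2)`; the same with `2 ^ k`
replaced by arbitrary integers all of whose prime factors belong to a fixed finite set.

Proof. The logarithms of the integers `n ≥ 2` for which `n ^ t` is algebraic span a rational space of dimension at most two (strong six
exponentials theorem), so that `Q log n = i log a + j log a'` with fixed positive integers `a, a', Q` and integers `i, j = O (log n)`,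
and if `n` is close to `x` and `n ≠ x` this contradicts the weak lower bound for linear forms in the `s + 2` logarithms of
`a, a', m_1, …, m_s`.
-/

set_option autoImplicit false

namespace Pool.Agent.Results.MP_ee2255_nt.NearProductsOfPowers

open Pool.Agent.Q138.PS

/-- **Theorem.** -/
theorem result (s : ℕ) : ∃ κ : ℕ, ∀ t : ℝ, Irrational t → ∃ N₀ : ℕ, ∀ N : ℕ, N₀ ≤ N → ∀ (m : Fin s → ℕ) (b : Fin s → ℤ),
    (∀ k, 1 ≤ m k ∧ m k ≤ N) → (∀ k, |b k| ≤ N) → ∀ n : ℕ, 2 ≤ n → (n : ℝ) ≠ ∏ k, (m k : ℝ) ^ (b k) →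
      |(n : ℝ) - ∏ k, (m k : ℝ) ^ (b k)| ≤ (∏ k, (m k : ℝ) ^ (b k)) * Real.exp (-(Real.log N) ^ κ) →
        Transcendental ℚ ((n : ℝ) ^ t) := by
  obtain ⟨κ, hκ⟩ := windows_rank2 s
  refine ⟨κ, fun t ht => ?_⟩
  by_cases halg : IsAlgebraic ℚ t
  · refine ⟨0, fun N _ m b _ _ n hn _ _ => ?_⟩
    have hn1 : (1 : ℝ) < n := by exact_mod_cast (by omega : 1 < n)
    exact Pool.Agent.H137R5.Tow.gs (by linarith) hn1.ne' (isAlgebraic_natCast n) halg ht
  · obtain ⟨N₀, h⟩ := hκ (fun n => IsAlgebraic ℚ ((n : ℝ) ^ t)) fun n hn h hi =>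
      Pool.Agent.H462R2.PiE.three t halg n hn hi h
    exact ⟨N₀, fun N hN m b hm hb n hn hne hnear => h N hN m b hm hb n hn hne hnear⟩

end Pool.Agent.Results.MP_ee2255_nt.NearProductsOfPowers
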