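import Pool.Agent.Q258.PiE.D

/-!
# Powers `x ^ e` of the positive rationals: structure of the exceptions, and a count

Unconditional. The positive rational numbers `x` with `x ^ e` algebraic (or rational) are the products
`c ^ i d ^ j` of the powers of two positive rationals. There are at most as many integers `n ≤ N` among
them as there are integers `2 ^ i 3 ^ j ≤ N`.
-/

set_option autoImplicit false

namespace Pool.Agent.Results.MP_ee2255_nt.TwoGeneratorsForE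

open Classical in
theorem result :
    (∃ c d : ℚ, 0 < c ∧ 0 < d ∧ ∀ x : ℚ, 0 < x →
      (IsAlgebraic ℚ ((x : ℝ) ^ Real.exp 1) ↔ ∃ i j : ℤ, x = c ^ i * d ^ j)) ∧
    (∃ c d : ℚ, 0 < c ∧ 0 < d ∧ ∀ x : ℚ, 0 < x →
      ((∃ q : ℚ, (x : ℝ) ^ Real.exp 1 = q) ↔ ∃ i j : ℤ, x = c ^ i * d ^ j)) ∧
    (∀ N : ℕ, ((Finset.Icc 2 N).filter (fun n : ℕ =>
        IsAlgebraic ℚ ((n : ℝ) ^ Real.exp 1))).card ≤
      ((Finset.Icc 2 N).filter (fun m : ℕ => ∃ i j : ℕ, m = 2 ^ i * 3 ^ j)).card) ∧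
    (∀ N : ℕ, ((Finset.Icc 2 N).filter (fun n : ℕ => IsAlgebraic ℚ ((n : ℝ) ^ Real.pi) ∨
        IsAlgebraic ℚ ((n : ℝ) ^ Real.exp 1))).card ≤
      ((Finset.Icc 2 N).filter (fun m : ℕ => ∃ i j : ℕ, m = 2 ^ i * 3 ^ j)).card +
        Nat.log 2 N) := by
  refine ⟨Pool.Agent.Q258.PiE.struct_alg _ Pool.Agent.Q258.PiE.e_trans,
    Pool.Agent.Q258.PiE.struct_rat _ Pool.Agent.Q258.PiE.e_trans, ?_, ?_⟩
  · intro N
    convert Pool.Agent.Q258.PiE.count_b _ Pool.Agent.Q258.PiE.e_trans N using 2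
  · intro N
    convert Pool.Agent.Q258.PiE.count_both N using 2

end Pool.Agent.Results.MP_ee2255_nt.TwoGeneratorsForE
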